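import Pool.Agent.H749R6.CM.Fin

set_option autoImplicit false

/-!
# Exactly `m` primes just below the multiples of almost every real number

For all `0 < δ < 1`, `0 < λ ≤ Λ` and `m ≥ 0` there are `c, κ > 0` such that for all large `Y` and all real `x` in `[Y, 2 Y]`
outside a set of measure at most `Y ^ (1 - κ)`: for at least `c Y ^ δ` of the integers `k ≤ Y ^ δ` the interval
`(k x - λ log (k x), k x)` contains exactly `m` primes and `(k x - Λ log (k x), k x - λ log (k x)]` contains none.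
-/

namespace Pool.Agent.Results.MP_31d0eb_nt.ExactCountsBelowMultiples

open MeasureTheory

/-- the primes in the open interval `(y - H, y)` -/
def primesBelow (H y : ℝ) : Set ℕ := {p : ℕ | p.Prime ∧ y - H < p ∧ (p : ℝ) < y}

theorem result (δ lam Lam : ℝ) (m : ℕ) (hδ : 0 < δ) (hδ1 : δ < 1) (hlam : 0 < lam) (hLam : lam ≤ Lam) :
    ∃ c κ : ℝ, 0 < c ∧ 0 < κ ∧ ∃ Y₀ : ℝ, ∀ Y : ℝ, Y₀ ≤ Y →
      ∃ E : Set ℝ, MeasurableSet E ∧ volume E ≤ ENNReal.ofReal (Y ^ (1 - κ)) ∧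
      ∀ x : ℝ, Y ≤ x → x ≤ 2 * Y → x ∉ E →
        c * Y ^ δ ≤ ({k : ℕ | (k : ℝ) ≤ Y ^ δ ∧
          (primesBelow (lam * Real.log (k * x)) (k * x)).ncard = m ∧
          primesBelow (Lam * Real.log (k * x)) (k * x) =
            primesBelow (lam * Real.log (k * x)) (k * x)}.ncard : ℝ) := by
  obtain ⟨c, κ, hc, hκ, Y₀, h⟩ := Pool.Agent.H749R6.CM.multiples δ lam Lam m hδ hδ1 hlam hLam
  refine ⟨c, κ, hc, hκ, max Y₀ 1, fun Y hY => ?_⟩
  have hY0 : Y₀ ≤ Y := (le_max_left _ _).trans hY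
  have hY1 : 1 ≤ Y := (le_max_right _ _).trans hY
  obtain ⟨E, hE, hE1, hE2⟩ := h Y hY0
  refine ⟨E, hE, hE1, fun x h1 h2 h3 => (hE2 x h1 h2 h3).trans ?_⟩
  apply Nat.cast_le.2
  apply Set.ncard_le_ncard
  · rintro k ⟨hk, hm, ha⟩
    refine ⟨hk, hm, ?_⟩
    ext p
    simp only [primesBelow, Set.mem_setOf_eq]
    constructor
    · rintro ⟨q1, q2, q3⟩
      exact ⟨q1, ha p q1 q2 q3, q3⟩
    · rintro ⟨q1, q2, q3⟩
      refine ⟨q1, ?_, q3⟩
      rcases Nat.eq_zero_or_pos k with hk0 | hk0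
      · subst hk0
        simp at q3
        have : (0 : ℝ) ≤ p := Nat.cast_nonneg p
        linarith
      · have hkx : 1 ≤ (k : ℝ) * x := by
          have : (1 : ℝ) ≤ k := by exact_mod_cast hk0
          nlinarith
        have : 0 ≤ Real.log (k * x) := Real.log_nonneg hkx
        nlinarith
  · exact (Set.finite_Iic ⌊Y ^ δ⌋₊).subset fun k hk => Nat.le_floor hk.1

end Pool.Agent.Results.MP_31d0eb_nt.ExactCountsBelowMultiples
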